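import Pool.Agent.N62.AG.Stm
import Pool.Agent.R395.FT.Comp

/-!
# Project AG, leaf REF: the test is recursively enumerable (helper527)
-/

set_option autoImplicit false

namespace Pool.Agent.N527.AG.REF

open Pool.Agent.Helper446
open Pool.Agent.W960.GA (cp_all_lt cp_ex_lt cp_and cp_not cp_imp cmod cdiv)
open Pool.Agent.R395.FT (cp_dvd cp_or cp_sqf cp_prime ciadd cisub cimul cineg cicast)
open Pool.Agent.N62.AG (dsc AA BB weier onC cnt e8 qn cls ns PFin)
open Pool.Agent.Helper566.FD.J7 (prim_natCast prim_int_neg)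

theorem prim_dsc : Primrec dsc := by
  unfold dsc
  exact Primrec.ite (Primrec.eq.comp (Primrec.nat_mod.comp Primrec.id (Primrec.const 4))
    (Primrec.const 1)) prim_natCast (prim_int_neg.comp prim_natCast)

theorem prim_onC : PrimrecPred fun x : ℕ × (ℕ × ℕ) => onC x.1 x.2.1 := by
  have hp : Primrec fun x : ℕ × (ℕ × ℕ) => x.1 := Primrec.fst
  have hi : Primrec fun x : ℕ × (ℕ × ℕ) => x.2.1 := Primrec.fst.comp Primrec.snd
  have hd : Primrec fun x : ℕ × (ℕ × ℕ) => x.2.1 / x.1 := Primrec.nat_div.comp hi hp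
  have hm : Primrec fun x : ℕ × (ℕ × ℕ) => x.2.1 % x.1 := Primrec.nat_mod.comp hi hp
  exact Primrec.eq.comp
    (Primrec.nat_mod.comp (Primrec.nat_add.comp (Primrec.nat_mul.comp hd hd)
      (Primrec.const 285714)) hp)
    (Primrec.nat_mod.comp (Primrec.nat_add.comp (Primrec.nat_mul.comp hm
      (Primrec.nat_mul.comp hm hm)) (Primrec.nat_mul.comp (Primrec.const 5805) hm)) hp)

theorem prim_cnt : Primrec₂ cnt := by
  have h : Primrec₂ fun (p : ℕ) (x : ℕ × ℕ) => if onC p x.1 then x.2 + 1 else x.2 :=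
    Primrec.ite prim_onC (Primrec.succ.comp (Primrec.snd.comp Primrec.snd))
      (Primrec.snd.comp Primrec.snd)
  exact Primrec.nat_rec (Primrec.const 0) h

section

variable {α : Type} [Primcodable α]

attribute [local fun_prop] cmod cdiv ciadd cisub cimul cineg cicast

@[local fun_prop] theorem ccnt {f g : α → ℕ} (hf : Computable f) (hg : Computable g) :
    Computable fun x => cnt (f x) (g x) := prim_cnt.to_comp.comp hf hg

@[local fun_prop] theorem cdsc {f : α → ℕ} (hf : Computable f) :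
    Computable fun x => dsc (f x) := prim_dsc.to_comp.comp hf

@[local fun_prop] theorem cAA {f : α → ℤ} (hf : Computable f) :
    Computable fun x => AA (f x) := by
  have h : Computable fun x => 5805 * (f x * f x) := by fun_prop
  refine h.of_eq fun x => ?_
  unfold AA
  ring

@[local fun_prop] theorem cBB {f : α → ℤ} (hf : Computable f) :
    Computable fun x => BB (f x) := by
  have h : Computable fun x => -285714 * (f x * (f x * f x)) := by fun_prop
  refine h.of_eq fun x => ?_
  unfold BB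
  ring

@[local fun_prop] theorem cweier {f g : α → ℤ} (hf : Computable f) (hg : Computable g) :
    Computable (fun x => weier (f x) (g x)) := by
  unfold weier
  refine Computable.list_cons.comp (Computable.list_cons.comp (by fun_prop)
    (Computable.const _)) (Computable.list_cons.comp (Computable.list_cons.comp (by fun_prop)
    (Computable.const _)) (Computable.const _))

theorem cp_e8 {f : α → ℕ} (hf : Computable f) : ComputablePred fun x => e8 (f x) := by
  unfold e8
  exact cp_dvd (by fun_prop) (by fun_prop)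

theorem cp_qn {f g : α → ℕ} (hf : Computable f) (hg : Computable g) :
    ComputablePred fun x => qn (f x) (g x) := by
  unfold qn
  refine cp_all_lt (p := fun x y => ¬ y * y % f x = g x % f x) ?_ hf
  exact cp_not (RE.cp_eq (by fun_prop) (by fun_prop))

theorem cp_modeq {f : α → ℕ} (hf : Computable f) (a b : ℕ) :
    ComputablePred fun x => f x % a = b := RE.cp_eq (by fun_prop) (by fun_prop)

theorem cp_cls {f : α → ℕ} (hf : Computable f) : ComputablePred fun x => cls (f x) := by
  unfold cls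
  refine cp_and (cp_or
    (cp_and (cp_modeq hf 4 1) (cp_or (cp_modeq hf 7 1) (cp_or (cp_modeq hf 7 2) (cp_modeq hf 7 4))))
    (cp_and (cp_modeq hf 4 3) (cp_or (cp_modeq hf 7 3) (cp_or (cp_modeq hf 7 5)
      (cp_modeq hf 7 6))))) (cp_and (cp_sqf hf) ?_)
  refine cp_all_lt (p := fun x p => (p.Prime ∧ p ∣ f x) →
    (¬ p = 3 ∧ (p % 8 = 1 ∧ (p % 7 = 1 ∨ p % 7 = 2 ∨ p % 7 = 4) ∨
    (p % 8 = 3 ∨ p % 8 = 5) ∧ (p % 7 = 3 ∨ p % 7 = 5 ∨ p % 7 = 6)))) ?_ (by fun_prop)
  have h : Computable fun x : α × ℕ => x.2 := by fun_prop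
  refine cp_imp (cp_and (cp_prime h) (cp_dvd h (by fun_prop))) (cp_and (cp_not
    (RE.cp_eq (by fun_prop) (by fun_prop))) (cp_or
    (cp_and (cp_modeq h 8 1) (cp_or (cp_modeq h 7 1) (cp_or (cp_modeq h 7 2) (cp_modeq h 7 4))))
    (cp_and (cp_or (cp_modeq h 8 3) (cp_modeq h 8 5)) (cp_or (cp_modeq h 7 3)
      (cp_or (cp_modeq h 7 5) (cp_modeq h 7 6))))))

theorem cp_row {f g h : α → ℕ} (hf : Computable f) (hg : Computable g) (hh : Computable h) :
    ComputablePred fun x => Pool.Agent.N62.AG.row (f x) (g x) (h x) := by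
  unfold Pool.Agent.N62.AG.row
  exact cp_or (cp_and (cp_not (cp_dvd hg hh)) (cp_qn hg hh)) (cp_and (cp_dvd hg hh) (cp_or
    (cp_and (cp_qn hg (by fun_prop)) (cp_e8 hg))
    (cp_and (cp_not (cp_qn hg (by fun_prop))) (cp_not (cp_e8 hg)))))

theorem cp_ns {f : α → ℕ} (hf : Computable f) : ComputablePred fun x => ns (f x) := by
  unfold ns
  refine cp_all_lt (p := fun x m => (m ∣ f x ∧ ¬ m = 1 ∧
      ∀ p < f x + 1, (p.Prime ∧ p ∣ m) → p % 8 = 1) →
    ∃ p < f x + 1, (p.Prime ∧ p ∣ f x ∧ p % 8 = 1) ∧ Pool.Agent.N62.AG.row (f x) p m) ?_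
    (by fun_prop)
  refine cp_imp (cp_and (cp_dvd (by fun_prop) (by fun_prop)) (cp_and (cp_not
    (RE.cp_eq (by fun_prop) (by fun_prop))) ?_)) ?_
  · refine cp_all_lt (p := fun (x : α × ℕ) p => (p.Prime ∧ p ∣ x.2) → p % 8 = 1) ?_ (by fun_prop)
    exact cp_imp (cp_and (cp_prime (by fun_prop)) (cp_dvd (by fun_prop) (by fun_prop)))
      (cp_modeq (by fun_prop) 8 1)
  · refine cp_ex_lt (p := fun (x : α × ℕ) p => (p.Prime ∧ p ∣ f x.1 ∧ p % 8 = 1) ∧
      Pool.Agent.N62.AG.row (f x.1) p x.2) ?_ (by fun_prop)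
    exact cp_and (cp_and (cp_prime (by fun_prop)) (cp_and (cp_dvd (by fun_prop) (by fun_prop))
      (cp_modeq (by fun_prop) 8 1))) (cp_row (by fun_prop) (by fun_prop) (by fun_prop))

end

attribute [local fun_prop] cmod cdiv ciadd cisub cimul cineg cicast ccnt cdsc cAA cBB cweier

/-- REF -/
theorem t : Pool.Agent.N62.AG.S_REF := by
  show REPred PFin
  unfold PFin
  refine RE.ex (p := fun (L : List (List ℤ)) (N : ℕ) =>
    L = weier (AA (dsc N)) (BB (dsc N)) ∧ cls N ∧ ns N) ?_
  exact RE.of_comput (cp_and (RE.cp_eq (by fun_prop) (by fun_prop))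
    (cp_and (cp_cls (by fun_prop)) (cp_ns (by fun_prop))))

end Pool.Agent.N527.AG.REF
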